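import Pool.Agent.Helper14D.Stm4

set_option autoImplicit false

/-!
# Density of the exceptional degree tuples
-/

namespace Pool.Agent.Helper4.VD

open Finset Filter Topology
open Pool.Agent.Helper14D
open scoped Classical

/-- the number of elements of `S` in `[1, X]` -/
noncomputable def cnt (S : Set ℕ) (X : ℕ) : ℕ := ((Ioc 0 X).filter (· ∈ S)).card

theorem cnt_mono {S S' : Set ℕ} (h : S ⊆ S') (X : ℕ) : cnt S X ≤ cnt S' X :=
  card_le_card (monotone_filter_right _ fun _ _ hd => h hd)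

theorem cnt_union (S S' : Set ℕ) (X : ℕ) : cnt (S ∪ S') X ≤ cnt S X + cnt S' X := by
  unfold cnt
  refine (card_le_card ?_).trans (card_union_le _ _)
  intro d hd
  simp only [mem_filter, mem_union, Set.mem_union] at hd ⊢
  tauto

/-- the property of having density zero -/
def Z (S : Set ℕ) : Prop := Tendsto (fun X : ℕ => (cnt S X : ℝ) / X) atTop (𝓝 0)

theorem Z.mono {S S' : Set ℕ} (h : Z S') (hs : S ⊆ S') : Z S := by
  refine squeeze_zero (fun X => by positivity) (fun X => ?_) h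
  have : (cnt S X : ℝ) ≤ cnt S' X := by exact_mod_cast cnt_mono hs X
  exact div_le_div_of_nonneg_right this (Nat.cast_nonneg _)

theorem Z.union {S S' : Set ℕ} (h : Z S) (h' : Z S') : Z (S ∪ S') := by
  have h2 := h.add h'
  rw [add_zero] at h2
  refine squeeze_zero (fun X => by positivity) (fun X => ?_) h2
  rw [← add_div]
  have : (cnt (S ∪ S') X : ℝ) ≤ cnt S X + cnt S' X := by exact_mod_cast cnt_union S S' X
  exact div_le_div_of_nonneg_right this (Nat.cast_nonneg _)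

theorem Z_empty : Z ∅ := by
  have : (fun X : ℕ => (cnt ∅ X : ℝ) / X) = fun _ => 0 := by
    funext X
    simp [cnt]
  unfold Z
  rw [this]
  exact tendsto_const_nhds

theorem Z_biUnion (f : ℕ → Set ℕ) (B : ℕ) (h : ∀ p < B, Z (f p)) :
    Z {d | ∃ p < B, d ∈ f p} := by
  induction B with
  | zero =>
    refine Z_empty.mono ?_
    rintro d ⟨p, hp, _⟩
    omega
  | succ B ih =>
    refine ((ih fun p hp => h p (by omega)).union (h B (by omega))).mono ?_
    rintro d ⟨p, hp, hd⟩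
    rcases Nat.lt_succ_iff_lt_or_eq.1 hp with h1 | h1
    · exact Or.inl ⟨p, h1, hd⟩
    · subst h1
      exact Or.inr hd

/-- numbers with a large power of `p` -/
def Dp (c e p : ℕ) : Set ℕ := {d | p.Prime ∧ ∃ k : ℕ, p ^ k ∣ d ∧ d < c * (p ^ k) ^ e}

theorem cnt_Dp (c e p K X : ℕ) : cnt (Dp c e p) X ≤ c * (p ^ K) ^ e + X / p ^ K := by
  unfold cnt
  have h1 : (Ioc 0 X).filter (· ∈ Dp c e p) ⊆
      range (c * (p ^ K) ^ e) ∪ (Ioc 0 X).filter (p ^ K ∣ ·) := by
    intro d hd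
    rw [mem_filter] at hd
    obtain ⟨hd, hp, k, h2, h3⟩ := hd
    rw [mem_union, mem_range, mem_filter]
    by_cases hk : k ≤ K
    · left
      refine h3.trans_le (Nat.mul_le_mul_left _ (Nat.pow_le_pow_left ?_ _))
      exact Nat.pow_le_pow_right hp.pos hk
    · right
      exact ⟨hd, (pow_dvd_pow p (by omega)).trans h2⟩
  refine (card_le_card h1).trans ((card_union_le _ _).trans ?_)
  rw [card_range, Nat.Ioc_filter_dvd_card_eq_div]

theorem Z_Dp (c e p : ℕ) : Z (Dp c e p) := by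
  by_cases hp : p.Prime
  swap
  · refine Z_empty.mono ?_
    rintro d ⟨h, _⟩
    exact absurd h hp
  unfold Z
  rw [Metric.tendsto_atTop]
  intro ε hε
  obtain ⟨K, hK⟩ := exists_pow_lt_of_lt_one (show (0 : ℝ) < ε / 2 by positivity)
    (show (1 / 2 : ℝ) < 1 by norm_num)
  obtain ⟨N, hN⟩ := exists_nat_gt (2 * ((c * (p ^ K) ^ e : ℕ) : ℝ) / ε)
  refine ⟨N + 1, fun X hX => ?_⟩
  have hX0 : (0 : ℝ) < X := by
    have : 0 < X := by omega
    exact_mod_cast this
  rw [Real.dist_eq, sub_zero, abs_of_nonneg (by positivity), div_lt_iff₀ hX0]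
  have h1 : (cnt (Dp c e p) X : ℝ) ≤ ((c * (p ^ K) ^ e : ℕ) : ℝ) + (X : ℝ) / ((p ^ K : ℕ) : ℝ) := by
    have h2 : (cnt (Dp c e p) X : ℝ) ≤ ((c * (p ^ K) ^ e : ℕ) : ℝ) + ((X / p ^ K : ℕ) : ℝ) := by
      exact_mod_cast cnt_Dp c e p K X
    have h3 : ((X / p ^ K : ℕ) : ℝ) ≤ (X : ℝ) / ((p ^ K : ℕ) : ℝ) := Nat.cast_div_le
    linarith
  have h2 : (X : ℝ) / ((p ^ K : ℕ) : ℝ) ≤ X * (1 / 2) ^ K := by
    rw [div_eq_mul_inv]
    refine mul_le_mul_of_nonneg_left ?_ hX0.le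
    rw [one_div, inv_pow]
    refine inv_anti₀ (by positivity) ?_
    push_cast
    exact pow_le_pow_left₀ (by norm_num) (by exact_mod_cast hp.two_le) K
  have h3 : (X : ℝ) * (1 / 2) ^ K < X * (ε / 2) := mul_lt_mul_of_pos_left hK hX0
  have h4 : ((c * (p ^ K) ^ e : ℕ) : ℝ) < ε / 2 * X := by
    have h5 : 2 * ((c * (p ^ K) ^ e : ℕ) : ℝ) / ε < X := by
      refine hN.trans_le ?_
      exact_mod_cast (by omega : N ≤ X)
    rw [div_lt_iff₀ hε] at h5
    linarith
  nlinarith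

/-! ### Tuples -/

/-- the ratio of the number of points of a box -/
theorem ratio_box {r : ℕ} (A : Fin r → Finset ℕ) (X : ℕ) :
    ((Fintype.piFinset A).card : ℝ) / (X : ℝ) ^ r = ∏ i, ((A i).card : ℝ) / X := by
  rw [Fintype.card_piFinset, prod_div_distrib, prod_const, card_univ, Fintype.card_fin]
  push_cast
  rfl

theorem prod_le_sub {r : ℕ} (f : Fin r → ℝ) (h0 : ∀ i, 0 ≤ f i) (h1 : ∀ i, f i ≤ 1)
    (s : Finset (Fin r)) : ∏ i, f i ≤ ∏ i ∈ s, f i := by
  rw [← prod_sdiff (subset_univ s)]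
  calc (∏ i ∈ univ \ s, f i) * ∏ i ∈ s, f i ≤ 1 * ∏ i ∈ s, f i :=
        mul_le_mul_of_nonneg_right (prod_le_one (fun i _ => h0 i) fun i _ => h1 i)
          (prod_nonneg fun i _ => h0 i)
    _ = _ := one_mul _

theorem ratio_le {r : ℕ} (A : Fin r → Finset ℕ) (X : ℕ) (hA : ∀ i, A i ⊆ Ioc 0 X)
    (s : Finset (Fin r)) :
    ((Fintype.piFinset A).card : ℝ) / (X : ℝ) ^ r ≤ ∏ i ∈ s, ((A i).card : ℝ) / X := by
  rw [ratio_box]
  refine prod_le_sub _ (fun i => by positivity) (fun i => ?_) s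
  apply div_le_one_of_le₀ _ (Nat.cast_nonneg _)
  have := card_le_card (hA i)
  rw [Nat.card_Ioc] at this
  exact_mod_cast (by omega : (A i).card ≤ X)

/-- tuples with an entry in `S` -/
noncomputable def P1 {r : ℕ} (S : Set ℕ) (X : ℕ) (i : Fin r) : Finset (Fin r → ℕ) :=
  Fintype.piFinset fun k => if k = i then (Ioc 0 X).filter (· ∈ S) else Ioc 0 X

theorem ratio_P1 {r : ℕ} (S : Set ℕ) (X : ℕ) (i : Fin r) :
    ((P1 S X i).card : ℝ) / (X : ℝ) ^ r ≤ (cnt S X : ℝ) / X := by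
  refine (ratio_le _ X (fun k => ?_) {i}).trans ?_
  · split_ifs
    · exact filter_subset _ _
    · exact subset_refl _
  · rw [prod_singleton, if_pos rfl]
    rfl

/-- tuples with two entries divisible by `p` -/
noncomputable def P2 {r : ℕ} (X p : ℕ) (i j : Fin r) : Finset (Fin r → ℕ) :=
  Fintype.piFinset fun k => if k = i ∨ k = j then (Ioc 0 X).filter (p ∣ ·) else Ioc 0 X

theorem ratio_P2 {r : ℕ} (X p : ℕ) (hX : 0 < X) (i j : Fin r) (hij : i ≠ j) :
    ((P2 X p i j).card : ℝ) / (X : ℝ) ^ r ≤ ((p : ℝ) ^ 2)⁻¹ := by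
  refine (ratio_le _ X (fun k => ?_) {i, j}).trans ?_
  · split_ifs
    · exact filter_subset _ _
    · exact subset_refl _
  · rw [prod_pair hij, if_pos (Or.inl rfl), if_pos (Or.inr rfl), Nat.Ioc_filter_dvd_card_eq_div]
    have hX' : (0 : ℝ) < X := by exact_mod_cast hX
    have h1 : ((X / p : ℕ) : ℝ) / X ≤ (p : ℝ)⁻¹ := by
      rw [div_le_iff₀ hX']
      refine (Nat.cast_div_le (α := ℝ)).trans (le_of_eq ?_)
      rw [div_eq_mul_inv, mul_comm]
    calc ((X / p : ℕ) : ℝ) / X * (((X / p : ℕ) : ℝ) / X) ≤ (p : ℝ)⁻¹ * (p : ℝ)⁻¹ :=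
          mul_le_mul h1 h1 (by positivity) (by positivity)
      _ = _ := by rw [sq, mul_inv]

theorem t_dens2 (h : S_dens) : S_dens2 := by
  intro a0 c e r
  obtain ⟨S1, hS1def⟩ : ∃ S1 : Set ℕ, S1 = {d : ℕ | ∃ p k : ℕ, p.Prime ∧ p ^ k ∣ d ∧ d < a0 * p ^ k} :=
    ⟨_, rfl⟩
  have hS1 : Z S1 := by
    refine squeeze_zero (fun X => by positivity) (fun X => ?_) (h a0)
    refine div_le_div_of_nonneg_right ?_ (Nat.cast_nonneg _)
    have e1 : cnt S1 X = Set.ncard (↑((Ioc 0 X).filter (· ∈ S1)) : Set ℕ) :=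
      (Set.ncard_coe_finset _).symm
    rw [e1]
    have hfin : ({d : ℕ | d ≤ X ∧ ∃ p k : ℕ, p.Prime ∧ p ^ k ∣ d ∧ d < a0 * p ^ k}).Finite :=
      (Set.finite_Iic X).subset fun d hd => hd.1
    have h2 := Set.ncard_le_ncard (s := (↑((Ioc 0 X).filter (· ∈ S1)) : Set ℕ)) (by
      intro d hd
      rw [mem_coe, mem_filter, mem_Ioc, hS1def] at hd
      exact ⟨hd.1.2, hd.2⟩) hfin
    exact_mod_cast h2
  rw [Metric.tendsto_atTop]
  intro ε hε
  obtain ⟨B, hB⟩ := exists_nat_gt (3 * (r : ℝ) ^ 2 / ε)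
  obtain ⟨SB, hSBdef⟩ : ∃ SB : Set ℕ, SB = {d | ∃ p < B + 2, d ∈ Dp c e p} := ⟨_, rfl⟩
  have hSB : Z SB := by
    rw [hSBdef]
    exact Z_biUnion _ _ fun p _ => Z_Dp c e p
  have hε' : 0 < ε / (3 * ((r : ℝ) + 1)) := by positivity
  obtain ⟨N1, hN1⟩ := Metric.tendsto_atTop.1 hS1 _ hε'
  obtain ⟨N2, hN2⟩ := Metric.tendsto_atTop.1 hSB _ hε'
  refine ⟨max (max N1 N2) 1, fun X hX => ?_⟩
  have hXN1 := hN1 X ((le_max_left _ _).trans ((le_max_left _ _).trans hX))
  have hXN2 := hN2 X ((le_max_right _ _).trans ((le_max_left _ _).trans hX))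
  have hX1 : 0 < X := (le_max_right _ _).trans hX
  have hX0 : (0 : ℝ) < X := by exact_mod_cast hX1
  rw [Real.dist_eq, sub_zero, abs_of_nonneg (by positivity)] at hXN1 hXN2
  rw [Real.dist_eq, sub_zero, abs_of_nonneg (by positivity)]
  -- the covering
  set Q2 : Finset (Fin r → ℕ) := (univ : Finset (Fin r × Fin r)).biUnion fun ij =>
    (Ioc (B + 1) (max X (B + 1))).biUnion fun p => if ij.1 ≠ ij.2 then P2 X p ij.1 ij.2 else ∅ with hQ2
  have hcov : {d : Fin r → ℕ | (∀ i, 0 < d i ∧ d i ≤ X) ∧ Exc a0 c e d} ⊆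
      ↑((univ.biUnion fun i => P1 S1 X i) ∪ Q2 ∪ (univ.biUnion fun i => P1 SB X i)) := by
    rintro d ⟨hbox, hexc⟩
    rw [mem_coe, mem_union, mem_union]
    rcases hexc with ⟨i, p, k, h1, h2, h3⟩ | ⟨p, hp, ⟨i, j, hij, h1, h2⟩, i', k, h3, h4⟩
    · left
      left
      rw [mem_biUnion]
      refine ⟨i, mem_univ _, ?_⟩
      unfold P1
      rw [Fintype.mem_piFinset]
      intro l
      split_ifs with hl
      · subst hl
        rw [mem_filter, mem_Ioc, hS1def]
        exact ⟨hbox l, p, k, h1, h2, h3⟩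
      · rw [mem_Ioc]
        exact hbox l
    · by_cases hpB : p < B + 2
      · right
        rw [mem_biUnion]
        refine ⟨i', mem_univ _, ?_⟩
        unfold P1
        rw [Fintype.mem_piFinset]
        intro l
        split_ifs with hl
        · subst hl
          rw [mem_filter, mem_Ioc, hSBdef]
          exact ⟨hbox l, p, hpB, hp, k, h3, h4⟩
        · rw [mem_Ioc]
          exact hbox l
      · left
        right
        rw [hQ2, mem_biUnion]
        refine ⟨(i, j), mem_univ _, ?_⟩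
        rw [mem_biUnion]
        refine ⟨p, ?_, ?_⟩
        · rw [mem_Ioc]
          have := Nat.le_of_dvd (hbox i).1 h1
          have := (hbox i).2
          exact ⟨by omega, le_max_of_le_left (by omega)⟩
        · rw [if_pos hij]
          unfold P2
          rw [Fintype.mem_piFinset]
          intro l
          split_ifs with hl
          · rw [mem_filter, mem_Ioc]
            refine ⟨hbox l, ?_⟩
            rcases hl with rfl | rfl
            · exact h1
            · exact h2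
          · rw [mem_Ioc]
            exact hbox l
  have hcard : Set.ncard {d : Fin r → ℕ | (∀ i, 0 < d i ∧ d i ≤ X) ∧ Exc a0 c e d} ≤
      (∑ i, (P1 (r := r) S1 X i).card) + (∑ ij : Fin r × Fin r, ∑ p ∈ Ioc (B + 1) (max X (B + 1)),
        (if ij.1 ≠ ij.2 then P2 X p ij.1 ij.2 else ∅).card) + ∑ i, (P1 (r := r) SB X i).card := by
    refine (Set.ncard_le_ncard hcov (finite_toSet _)).trans ?_
    rw [Set.ncard_coe_finset]
    refine (card_union_le _ _).trans (Nat.add_le_add ((card_union_le _ _).trans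
      (Nat.add_le_add card_biUnion_le ?_)) card_biUnion_le)
    exact card_biUnion_le.trans (sum_le_sum fun ij _ => card_biUnion_le)
  have hratio : (Set.ncard {d : Fin r → ℕ | (∀ i, 0 < d i ∧ d i ≤ X) ∧ Exc a0 c e d} : ℝ) /
      (X : ℝ) ^ r ≤ (∑ i, ((P1 (r := r) S1 X i).card : ℝ) / (X : ℝ) ^ r) +
        (∑ ij : Fin r × Fin r, ∑ p ∈ Ioc (B + 1) (max X (B + 1)),
        ((if ij.1 ≠ ij.2 then P2 X p ij.1 ij.2 else ∅).card : ℝ) / (X : ℝ) ^ r) +
        ∑ i, ((P1 (r := r) SB X i).card : ℝ) / (X : ℝ) ^ r := by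
    simp only [← sum_div]
    rw [← add_div, ← add_div]
    refine div_le_div_of_nonneg_right ?_ (by positivity)
    exact_mod_cast hcard
  have hb1 : ∑ i, ((P1 (r := r) S1 X i).card : ℝ) / (X : ℝ) ^ r ≤ r * (ε / (3 * ((r : ℝ) + 1))) := by
    refine (sum_le_sum fun i _ => (ratio_P1 S1 X i).trans hXN1.le).trans (le_of_eq ?_)
    rw [sum_const, card_univ, Fintype.card_fin, nsmul_eq_mul]
  have hb3 : ∑ i, ((P1 (r := r) SB X i).card : ℝ) / (X : ℝ) ^ r ≤ r * (ε / (3 * ((r : ℝ) + 1))) := by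
    refine (sum_le_sum fun i _ => (ratio_P1 SB X i).trans hXN2.le).trans (le_of_eq ?_)
    rw [sum_const, card_univ, Fintype.card_fin, nsmul_eq_mul]
  have hb2 : ∑ ij : Fin r × Fin r, ∑ p ∈ Ioc (B + 1) (max X (B + 1)),
        ((if ij.1 ≠ ij.2 then P2 X p ij.1 ij.2 else ∅).card : ℝ) / (X : ℝ) ^ r ≤
        (r : ℝ) ^ 2 * ((B + 1 : ℕ) : ℝ)⁻¹ := by
    have h1 : ∀ ij : Fin r × Fin r, ∑ p ∈ Ioc (B + 1) (max X (B + 1)),
        ((if ij.1 ≠ ij.2 then P2 X p ij.1 ij.2 else ∅).card : ℝ) / (X : ℝ) ^ r ≤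
        ((B + 1 : ℕ) : ℝ)⁻¹ := by
      intro ij
      have h2 : ∑ p ∈ Ioc (B + 1) (max X (B + 1)), ((p : ℝ) ^ 2)⁻¹ ≤ ((B + 1 : ℕ) : ℝ)⁻¹ := by
        have := sum_Ioc_inv_sq_le_sub (α := ℝ) (k := B + 1) (n := max X (B + 1)) (by omega)
          (le_max_right _ _)
        refine this.trans ?_
        have : (0 : ℝ) ≤ ((max X (B + 1) : ℕ) : ℝ)⁻¹ := by positivity
        linarith
      refine (sum_le_sum fun p hp => ?_).trans h2
      split_ifs with hij
      · exact ratio_P2 X p hX1 _ _ hij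
      · simp only [card_empty, Nat.cast_zero, zero_div]
        positivity
    refine (sum_le_sum fun ij _ => h1 ij).trans (le_of_eq ?_)
    rw [sum_const, card_univ, Fintype.card_prod, Fintype.card_fin, nsmul_eq_mul]
    push_cast
    ring
  have hB1 : (r : ℝ) ^ 2 * ((B + 1 : ℕ) : ℝ)⁻¹ < ε / 3 := by
    rw [← div_eq_mul_inv, div_lt_iff₀ (by positivity)]
    rw [div_lt_iff₀ hε] at hB
    push_cast
    nlinarith
  have hr1 : (r : ℝ) * (ε / (3 * ((r : ℝ) + 1))) ≤ ε / 3 := by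
    rw [mul_div_assoc', div_le_div_iff₀ (by positivity) (by norm_num)]
    nlinarith [hε.le, (Nat.cast_nonneg r : (0 : ℝ) ≤ r)]
  linarith

end Pool.Agent.Helper4.VD
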