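import Mathlib
import Pool.Agent.Helper14D.Stm2

/-!
# Generic sections (piece K)
-/

set_option autoImplicit false

open MvPolynomial

namespace Pool.Agent.Helper4.VD

open Pool.Agent.Helper14C Pool.Agent.TH922.KC Pool.Agent.Helper14D

section

variable {N : ℕ} {τ : Type} [Fintype τ] [DecidableEq τ] {M1 : ℕ}

/-- the indices of the sections which can be raised -/
abbrev Jx (N : ℕ) (τ : Type) (M1 : ℕ) (t0 : τ) : Type := {β : Ix N τ M1 // (β.2 t0 : ℕ) < M1}

/-- `∑ b β w β` -/
noncomputable def lv {R : Type} [CommRing R] (t0 : τ) (b : ℕ → Ix N τ M1 → R) (k : ℕ) :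
    MvPolynomial (Ix N τ M1) R :=
  ∑ β : Jx N τ M1 t0, C (b k β.1) * X β.1

/-- `∑ b β w (up β)` -/
noncomputable def lu {R : Type} [CommRing R] (t0 : τ) (b : ℕ → Ix N τ M1 → R) (k : ℕ) :
    MvPolynomial (Ix N τ M1) R :=
  ∑ β : Jx N τ M1 t0, C (b k β.1) * X (up t0 β.1 β.2)

/-- the matrix -/
noncomputable def mm {R : Type} [CommRing R] (t0 : τ) (b : ℕ → Ix N τ M1 → R) (q : ℕ) :
    Matrix (Fin q) (Fin q) (MvPolynomial (Ix N τ M1) R) :=
  Matrix.of fun s t => if (t : ℕ) ≤ s then lv t0 b (s - t) else lu t0 b (s + q - t)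

lemma lv_hom {R : Type} [CommRing R] (t0 : τ) (b : ℕ → Ix N τ M1 → R) (k : ℕ) :
    (lv t0 b k).IsHomogeneous 1 :=
  IsHomogeneous.sum _ _ _ fun _ _ => isHomogeneous_C_mul_X _ _

lemma lu_hom {R : Type} [CommRing R] (t0 : τ) (b : ℕ → Ix N τ M1 → R) (k : ℕ) :
    (lu t0 b k).IsHomogeneous 1 :=
  IsHomogeneous.sum _ _ _ fun _ _ => isHomogeneous_C_mul_X _ _

lemma det_hom {R : Type} [CommRing R] {σ : Type} (q : ℕ)
    (A : Matrix (Fin q) (Fin q) (MvPolynomial σ R)) (hA : ∀ s t, (A s t).IsHomogeneous 1) :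
    A.det.IsHomogeneous q := by
  rw [Matrix.det_apply']
  refine IsHomogeneous.sum _ _ _ fun π _ => ?_
  have h1 : (∏ i, A (π i) i).IsHomogeneous (∑ _i : Fin q, 1) :=
    IsHomogeneous.prod _ _ _ fun i _ => hA _ _
  rw [Finset.sum_const, Finset.card_univ, Fintype.card_fin, smul_eq_mul, mul_one] at h1
  rcases Int.units_eq_one_or (Equiv.Perm.sign π) with h | h
  · rw [h]
    simpa using h1
  · rw [h]
    simpa using h1.neg

lemma mm_hom {R : Type} [CommRing R] (t0 : τ) (b : ℕ → Ix N τ M1 → R) (q : ℕ) :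
    (mm t0 b q).det.IsHomogeneous q := by
  refine det_hom q _ fun s t => ?_
  simp only [mm, Matrix.of_apply]
  split_ifs
  · exact lv_hom _ _ _
  · exact lu_hom _ _ _

/-- the value at a point -/
lemma mm_eval {k0 L : Type} [Field k0] [Field L] (χ : k0 →+* L) (t0 : τ)
    (b : ℕ → Ix N τ M1 → k0) (q : ℕ) (T : L) (z : Ix N τ M1 → L)
    (hT : ∀ (β : Ix N τ M1) (h : (β.2 t0 : ℕ) < M1), z (up t0 β h) = T * z β) :
    eval₂Hom χ z (mm t0 b q).det =
      (mat q 1 (T - ((0 : ℚ) : L)) (fun k =>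
        ∑ β ∈ Finset.univ.filter (fun β : Ix N τ M1 => (β.2 t0 : ℕ) < M1),
          χ (b k β) * z β)).det := by
  have hs : ∀ k, ∑ β ∈ Finset.univ.filter (fun β : Ix N τ M1 => (β.2 t0 : ℕ) < M1),
      χ (b k β) * z β = ∑ β : Jx N τ M1 t0, χ (b k β.1) * z β.1 := by
    intro k
    exact Finset.sum_subtype _ (fun β => by simp) _
  rw [RingHom.map_det]
  congr 1
  ext s t
  simp only [RingHom.mapMatrix_apply, Matrix.map_apply, mm, mat, Matrix.of_apply]
  split_ifs with h
  · rw [hs, one_mul]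
    simp only [lv, map_sum, map_mul, coe_eval₂Hom, eval₂_C, eval₂_X]
  · rw [hs, Rat.cast_zero, sub_zero, Finset.mul_sum]
    simp only [lu, map_sum, map_mul, coe_eval₂Hom, eval₂_C, eval₂_X]
    refine Finset.sum_congr rfl fun β _ => ?_
    rw [hT]
    ring

end

lemma Idx.mono' {K : Type} [Field K] {Y : Type} {S S' : Set (MvPolynomial Y K)} {Q M : ℕ}
    (h : Idx K S Q M) (hS : S ⊆ S') : Idx K S' Q M := by
  intro L _ _ _ z hz hf
  exact h L z hz fun f hf' => hf f (hS hf')

theorem t_spec (hcount : S_count) : S_spec := by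
  intro κ1 k0 _ _ _ _ hroots N τ _ _ m u v M1 q b c t0 hN hq hM1 hu hv hb hc
  classical
  obtain ⟨B, hk, hcB, hres⟩ := specialise' c hc
    (fun μ : It (Ix N τ M1) q => coeff μ.1 (mm t0 b q).det)
  let ι0 : k0 →+* B := (algebraMap k0 κ1).codRestrict B.toSubring hk
  let φ : k0 →+* IsLocalRing.ResidueField B := (IsLocalRing.residue B).comp ι0
  have hcκ : CharZero (IsLocalRing.ResidueField B) := charZero_of_injective_ringHom φ.injective
  have hroots' : ∀ n : ℕ, n ≠ 0 → ∃ ζ : IsLocalRing.ResidueField B, IsPrimitiveRoot ζ n := by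
    intro n hn
    obtain ⟨ζ, hζ⟩ := hroots n hn
    exact ⟨φ ζ, hζ.map_of_injective φ.injective⟩
  let c' : It (Ix N τ M1) q → B := fun μ => ⟨c μ, hcB μ⟩
  let s' : MvPolynomial (Ix N τ M1) (Polynomial B) :=
    MvPolynomial.map Polynomial.C (tp (Ix N τ M1) B q c')
  let SB : Set (MvPolynomial (Ix N τ M1) (Polynomial B)) :=
    SV u v M1 (Polynomial.X : Polynomial B) t0 s'
  have key := idx_gauss B SB (by
    rintro g (⟨d, F, ψ, hF, -, rfl⟩ | ⟨β, h, rfl⟩ | rfl)
    · exact ⟨d, hF.map _⟩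
    · exact ⟨1, (isHomogeneous_X _ _).sub (isHomogeneous_C_mul_X _ _)⟩
    · exact ⟨q, (tp_hom q c').map _⟩) q (N - 1).factorial (by
    intro L _ _ _ z hz hS
    let χ1 : Polynomial B →+* L := (algebraMap (FractionRing (Polynomial
      (IsLocalRing.ResidueField B))) L).comp ((algebraMap (Polynomial (IsLocalRing.ResidueField B))
        (FractionRing (Polynomial (IsLocalRing.ResidueField B)))).comp (pii B))
    have hS' : ∀ g ∈ SB, eval₂ χ1 z g = 0 := by
      intro g hg
      have h1 := hS _ ⟨g, hg, rfl⟩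
      rw [aeval_def, eval₂_map] at h1
      exact h1
    let χ0 : k0 →+* L := (algebraMap (FractionRing (Polynomial
      (IsLocalRing.ResidueField B))) L).comp ((algebraMap (Polynomial (IsLocalRing.ResidueField B))
        (FractionRing (Polynomial (IsLocalRing.ResidueField B)))).comp (Polynomial.C.comp φ))
    have hT : ∀ (β : Ix N τ M1) (h : (β.2 t0 : ℕ) < M1), z (up t0 β h)
        = algebraMap (FractionRing (Polynomial (IsLocalRing.ResidueField B))) L
          (algebraMap (Polynomial (IsLocalRing.ResidueField B))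
            (FractionRing (Polynomial (IsLocalRing.ResidueField B))) Polynomial.X) * z β := by
      intro β h
      have h1 := hS' _ (Or.inr (Or.inl ⟨β, h, rfl⟩))
      rw [eval₂_sub, eval₂_mul, eval₂_X, eval₂_X, eval₂_C] at h1
      have h2 : χ1 Polynomial.X = algebraMap (FractionRing (Polynomial
          (IsLocalRing.ResidueField B))) L (algebraMap (Polynomial (IsLocalRing.ResidueField B))
            (FractionRing (Polynomial (IsLocalRing.ResidueField B))) Polynomial.X) := by
        simp [χ1, pii]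
      rw [h2] at h1
      exact sub_eq_zero.mp h1
    refine hcount (IsLocalRing.ResidueField B) hroots' L N τ m u v M1 t0 q 0
      (fun k β => φ (b k β)) z hN hq hM1 hu hv ?_ hz ?_ hT ?_
    · have := hb.map' (f := φ.toRatAlgHom) φ.injective
      exact this
    · intro d F hF hF0 ψ
      let ψ0 : ℚ →+* Polynomial B := Polynomial.C.comp (ι0.comp (algebraMap ℚ k0))
      have h1 := hS' _ (Or.inl ⟨d, F, ψ0, hF, hF0, rfl⟩)
      rw [eval₂_map] at h1
      have h2 : ψ = χ1.comp ψ0 := Subsingleton.elim _ _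
      rw [h2]
      exact h1
    · have h1 := hS' s' (Or.inr (Or.inr rfl))
      have h2 : eval₂ χ1 z s' = eval₂Hom χ0 z (mm t0 b q).det := by
        simp only [s']
        rw [eval₂_map, coe_eval₂Hom, ← eval_map, ← eval_map, map_tp]
        congr 1
        conv_rhs => rw [← tp_coeff q (mm_hom t0 b q), map_tp]
        congr 1
        funext μ
        have e := hres μ
        simp only [χ1, χ0, c', RingHom.comp_apply]
        congr 2
        simp only [pii, Polynomial.coe_mapRingHom, Polynomial.map_C]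
        congr 1
      rw [h2, mm_eval χ0 t0 b q _ z hT] at h1
      exact h1)
  refine Idx.mono' key ?_
  rintro _ ⟨g, (⟨d, F, ψ, hF, hF0, rfl⟩ | ⟨β, h, rfl⟩ | rfl), rfl⟩
  · exact Or.inl ⟨d, F, (bet B).comp ψ, hF, hF0, by rw [MvPolynomial.map_map]⟩
  · refine Or.inr (Or.inl ⟨β, h, ?_⟩)
    have e1 : bet B Polynomial.X
        = algebraMap (Polynomial κ1) (FractionRing (Polynomial κ1)) Polynomial.X := by
      simp [bet]
    rw [map_sub, map_mul, map_X, map_X, map_C, e1]
  · refine Or.inr (Or.inr ?_)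
    simp only [s']
    rw [MvPolynomial.map_map, map_tp, map_tp]
    congr 1
    funext μ
    simp only [RingHom.comp_apply, c', bet_C]

end Pool.Agent.Helper4.VD
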